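import Pool.Agent.R546.MK.Blk

/-!
# The star inequality for measurable functions, and the free group
-/

set_option autoImplicit false
set_option linter.unusedSectionVars false

namespace Pool.Agent.R546.MK

open MeasureTheory ProbabilityTheory Filter Topology

section

variable {Ω : Type*} [MeasurableSpace Ω] {α : Type*} {μ : Measure Ω} [IsProbabilityMeasure μ]

theorem law_congr {X X' : Ω → α} (h : ∀ᵐ x ∂μ, X x = X' x) : law μ X = law μ X' := by
  funext a
  unfold law
  refine measureReal_congr ?_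
  filter_upwards [h] with x hx
  apply propext
  show X x = a ↔ X' x = a
  rw [hx]

theorem law_sub_le (X X' : Ω → α) (hX : FM X) (hX' : FM X') (a : α) :
    |law μ X a - law μ X' a| ≤ μ.real {x | X x ≠ X' x} := by
  unfold law
  refine (abs_measureReal_sub_le_measureReal_symmDiff (hX _).nullMeasurableSet
    (hX' _).nullMeasurableSet).trans ?_
  refine measureReal_mono ?_
  intro x hx
  show X x ≠ X' x
  intro h
  rcases hx with ⟨h1, h2⟩ | ⟨h1, h2⟩
  · exact h2 (by rw [Set.mem_preimage, ← h]; exact h1)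
  · exact h2 (by rw [Set.mem_preimage, h]; exact h1)

theorem Hm_tendsto [Fintype α] {X : Ω → α} {X' : ℕ → Ω → α} (hX : FM X) (hX' : ∀ k, FM (X' k))
    (h : Tendsto (fun k => μ.real {x | X' k x ≠ X x}) atTop (𝓝 0)) :
    Tendsto (fun k => Hm μ (X' k)) atTop (𝓝 (Hm μ X)) := by
  unfold Hm H137.PFR.ent
  refine tendsto_finsetSum _ fun a _ => ?_
  refine (Real.continuous_negMulLog.tendsto _).comp ?_
  rw [tendsto_iff_dist_tendsto_zero]
  refine squeeze_zero (fun _ => dist_nonneg) (fun k => ?_) h
  rw [Real.dist_eq]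
  exact law_sub_le _ _ (hX' k) hX a

end

section

variable {G : Type*} [Group G] [DecidableEq G] {K : Type*} [Fintype K] [Nonempty K]
  [MeasurableSpace K] [MeasurableSingletonClass K] (ν : Measure K) [IsProbabilityMeasure ν]

theorem approx {A : Set (G → K)} (hA : MeasurableSet A) {ε : ℝ} (hε : 0 < ε) :
    ∃ (B : Finset G) (A' : Set (G → K)), DependsOn (fun x => x ∈ A') (B : Set G) ∧
      MeasurableSet A' ∧ (bern G ν).real (symmDiff A' A) < ε := by
  have h := exists_measure_symmDiff_lt_of_generateFrom_isSetRing (μ := bern G ν)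
    (C := measurableCylinders fun _ : G => K) isSetRing_measurableCylinders
    ⟨{Set.univ}, Set.countable_singleton _, Set.singleton_subset_iff.2 (univ_mem_measurableCylinders _), by simp⟩
    generateFrom_measurableCylinders.symm hA (ε := ENNReal.ofReal ε) (by simpa using hε)
  obtain ⟨A', hA', hlt⟩ := h
  have hm : MeasurableSet A' := by
    rw [← generateFrom_measurableCylinders]
    exact MeasurableSpace.measurableSet_generateFrom hA'
  obtain ⟨s, S, hS, rfl⟩ := (mem_measurableCylinders _).1 hA'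
  refine ⟨s, _, ?_, hm, ?_⟩
  · intro x y hxy
    have : s.restrict x = s.restrict y := by
      funext i
      exact hxy i i.2
    show (x ∈ cylinder s S) = (y ∈ cylinder s S)
    rw [mem_cylinder, mem_cylinder, this]
  · unfold Measure.real
    exact ENNReal.toReal_lt_of_lt_ofReal hlt

/-- the pair of indicators of two sets -/
def ind {Ω : Type*} (A₁ A₂ : Set Ω) (x : Ω) : Prop × Prop := (x ∈ A₁, x ∈ A₂)

theorem FM_ind {Ω : Type*} [MeasurableSpace Ω] {A₁ A₂ : Set Ω} (h₁ : MeasurableSet A₁)
    (h₂ : MeasurableSet A₂) : FM (ind A₁ A₂) := by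
  have h : ∀ {A : Set Ω}, MeasurableSet A → FM (fun x => x ∈ A) := by
    intro A hA s
    exact (measurable_mem.2 hA) (Set.toFinite s).measurableSet
  exact (h h₁).pair (h h₂)

theorem star_meas {O J : Type*} [Fintype O] [DecidableEq O] [Fintype J] (s : O → G) (c : G → O)
    (w : G → J → G) (hw : ∀ v j, s (c (w v j)) * w v j = v)
    (hinj : ∀ v, Function.Injective (w v)) {A₁ A₂ : Set (G → K)} (h₁ : MeasurableSet A₁)
    (h₂ : MeasurableSet A₂) :
    Fintype.card J * Hm (bern G ν) (ind A₁ A₂) ≤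
      Hm (bern G ν) (fun x (o : O) => ind A₁ A₂ (T (s o) x)) := by
  have hpos : ∀ k : ℕ, (0 : ℝ) < 1 / ((k : ℝ) + 1) := fun k => Nat.one_div_pos_of_nat
  choose B₁ C₁ hd₁ hm₁ hlt₁ using fun k : ℕ => approx ν h₁ (hpos k)
  choose B₂ C₂ hd₂ hm₂ hlt₂ using fun k : ℕ => approx ν h₂ (hpos k)
  have hdep : ∀ k, DependsOn (ind (C₁ k) (C₂ k)) ((B₁ k ∪ B₂ k : Finset G) : Set G) := by
    intro k
    rw [Finset.coe_union]
    exact dep_pair (hd₁ k) (hd₂ k)
  have hlim : Tendsto (fun k : ℕ => 1 / ((k : ℝ) + 1) + 1 / ((k : ℝ) + 1)) atTop (𝓝 0) := by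
    have := (tendsto_one_div_add_atTop_nhds_zero_nat (𝕜 := ℝ)).add
      (tendsto_one_div_add_atTop_nhds_zero_nat (𝕜 := ℝ))
    rwa [add_zero] at this
  have hsub : ∀ k, {x | ind (C₁ k) (C₂ k) x ≠ ind A₁ A₂ x} ⊆
      symmDiff (C₁ k) A₁ ∪ symmDiff (C₂ k) A₂ := by
    intro k x hx
    by_contra hcon
    rw [Set.mem_union, not_or] at hcon
    refine hx (Prod.ext ?_ ?_)
    · by_contra h
      refine hcon.1 ?_
      rw [Set.mem_symmDiff]
      simp only [ind, eq_iff_iff] at h
      tauto
    · by_contra h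
      refine hcon.2 ?_
      rw [Set.mem_symmDiff]
      simp only [ind, eq_iff_iff] at h
      tauto
  have hle : ∀ k, (bern G ν).real {x | ind (C₁ k) (C₂ k) x ≠ ind A₁ A₂ x} ≤
      1 / ((k : ℝ) + 1) + 1 / ((k : ℝ) + 1) := fun k =>
    ((measureReal_mono (hsub k)).trans (measureReal_union_le _ _)).trans
      (add_le_add (hlt₁ k).le (hlt₂ k).le)
  have ht : Tendsto (fun k => (bern G ν).real {x | ind (C₁ k) (C₂ k) x ≠ ind A₁ A₂ x}) atTop
      (𝓝 0) := squeeze_zero (fun _ => measureReal_nonneg) hle hlim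
  have hFk : ∀ k, FM (ind (C₁ k) (C₂ k)) := fun k => FM_ind (hm₁ k) (hm₂ k)
  have hF : FM (ind A₁ A₂) := FM_ind h₁ h₂
  have hle' : ∀ k, (bern G ν).real {x | (fun o => ind (C₁ k) (C₂ k) (T (s o) x)) ≠
      fun o => ind A₁ A₂ (T (s o) x)} ≤
      ∑ o : O, (bern G ν).real {x | ind (C₁ k) (C₂ k) x ≠ ind A₁ A₂ x} := by
    intro k
    have h1 : {x | (fun o => ind (C₁ k) (C₂ k) (T (s o) x)) ≠
        fun o => ind A₁ A₂ (T (s o) x)} ⊆
        ⋃ o : O, T (s o) ⁻¹' {x | ind (C₁ k) (C₂ k) x ≠ ind A₁ A₂ x} := by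
      intro x hx
      by_contra hcon
      rw [Set.mem_iUnion, not_exists] at hcon
      refine hx (funext fun o => ?_)
      by_contra h
      exact hcon o h
    refine (measureReal_mono h1).trans ((measureReal_iUnion_fintype_le _).trans ?_)
    refine Finset.sum_le_sum fun o _ => le_of_eq ?_
    have hmeas : MeasurableSet {x | ind (C₁ k) (C₂ k) x ≠ ind A₁ A₂ x} :=
      (hFk k).pair hF {p | p.1 ≠ p.2}
    rw [← map_measureReal_apply (measurable_T (s o)) hmeas, map_T]
  have ht' : Tendsto (fun k => (bern G ν).real {x |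
      (fun o => ind (C₁ k) (C₂ k) (T (s o) x)) ≠ fun o => ind A₁ A₂ (T (s o) x)}) atTop
      (𝓝 0) := by
    refine squeeze_zero (fun _ => measureReal_nonneg) hle' ?_
    have := tendsto_finsetSum (Finset.univ : Finset O) (fun _ _ => ht)
    simpa using this
  have hT1 := (Hm_tendsto hF hFk ht).const_mul (Fintype.card J : ℝ)
  have hT2 := Hm_tendsto (X := fun x (o : O) => ind A₁ A₂ (T (s o) x))
    (X' := fun k x (o : O) => ind (C₁ k) (C₂ k) (T (s o) x))
    (FM.pi fun o => FM_T hF (s o)) (fun k => FM.pi fun o => FM_T (hFk k) (s o)) ht'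
  exact le_of_tendsto_of_tendsto' hT1 hT2 fun k => star_ineq ν s c w hw hinj (hdep k)

end

/-! ### Words in the free group -/

section

variable {n : ℕ}

/-- the centre and the leaves of a star -/
def st (o : Option (Fin n)) : FreeGroup (Fin n) := o.elim 1 FreeGroup.of

/-- which point of the star at `w` is used -/
def cc (w : FreeGroup (Fin n)) : Option (Fin n) :=
  match w.toWord.head? with
  | some (i, false) => some i
  | _ => none

/-- the stars that use `v` -/
def ww (v : FreeGroup (Fin n)) (j : Fin n) : FreeGroup (Fin n) :=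
  if v.toWord.head? = some (j, true) then v else (FreeGroup.of j)⁻¹ * v

theorem toWord_inv_mul {v : FreeGroup (Fin n)} {j : Fin n}
    (h : v.toWord.head? ≠ some (j, true)) :
    ((FreeGroup.of j)⁻¹ * v).toWord = (j, false) :: v.toWord := by
  rw [FreeGroup.toWord_mul, FreeGroup.toWord_inv, FreeGroup.toWord_of]
  have h1 : FreeGroup.invRev [(j, true)] ++ v.toWord = (j, false) :: v.toWord := by
    simp [FreeGroup.invRev]
  rw [h1, FreeGroup.reduce.cons, FreeGroup.reduce_toWord]
  rcases hv : v.toWord with _ | ⟨⟨k, b⟩, tl⟩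
  · rfl
  · rw [hv] at h
    simp only [List.head?_cons, ne_eq, Option.some.injEq, Prod.mk.injEq, not_and] at h
    have h2 : ¬ (j = k ∧ false = !b) := by
      rintro ⟨rfl, h3⟩
      refine h rfl ?_
      cases b
      · simp at h3
      · rfl
    simp only [h2, if_false]

theorem ww_spec (v : FreeGroup (Fin n)) (j : Fin n) : st (cc (ww v j)) * ww v j = v := by
  unfold ww
  split_ifs with h
  · have h1 : cc v = none := by
      unfold cc
      rw [h]
    rw [h1]
    simp [st]
  · have h1 : cc ((FreeGroup.of j)⁻¹ * v) = some j := by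
      unfold cc
      rw [toWord_inv_mul h]
      rfl
    rw [h1]
    simp [st]

theorem ww_inj (v : FreeGroup (Fin n)) : Function.Injective (ww v) := by
  intro j k hjk
  unfold ww at hjk
  split_ifs at hjk with h1 h2 h2
  · rw [h1] at h2
    simpa using h2
  · exfalso
    have : (FreeGroup.of k)⁻¹ = (1 : FreeGroup (Fin n)) := by
      have := hjk.symm
      rwa [mul_eq_right] at this
    rw [inv_eq_one] at this
    exact FreeGroup.of_ne_one k this
  · exfalso
    have : (FreeGroup.of j)⁻¹ = (1 : FreeGroup (Fin n)) := by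
      have := hjk
      rwa [mul_eq_right] at this
    rw [inv_eq_one] at this
    exact FreeGroup.of_ne_one j this
  · exact FreeGroup.of_injective (inv_injective (mul_right_cancel hjk))

end

end Pool.Agent.R546.MK
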