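import Mathlib

/-!
# Averages over a random subset, and their derivative
-/

set_option autoImplicit false
set_option linter.unusedSectionVars false

namespace Pool.Agent.R546.MK

variable {G : Type*} [DecidableEq G]

/-- the average of `F S` over a random subset `S` of `R`, every point being taken independently
with probability `t` -/
noncomputable def E (t : ℝ) (R : Finset G) (F : Finset G → ℝ) : ℝ :=
  ∑ S ∈ R.powerset, t ^ S.card * (1 - t) ^ (R.card - S.card) * F S

theorem E_empty (t : ℝ) (F : Finset G → ℝ) : E t ∅ F = F ∅ := by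
  simp [E]

theorem E_congr {t : ℝ} {R : Finset G} {F F' : Finset G → ℝ} (h : ∀ S ⊆ R, F S = F' S) :
    E t R F = E t R F' := by
  unfold E
  refine Finset.sum_congr rfl fun S hS => ?_
  rw [h S (Finset.mem_powerset.1 hS)]

theorem E_insert {t : ℝ} {R : Finset G} {a : G} (ha : a ∉ R) (F : Finset G → ℝ) :
    E t (insert a R) F = (1 - t) * E t R F + t * E t R (fun S => F (insert a S)) := by
  unfold E
  rw [Finset.sum_powerset_insert ha, Finset.mul_sum, Finset.mul_sum,
    Finset.card_insert_of_notMem ha]
  congr 1
  · refine Finset.sum_congr rfl fun S hS => ?_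
    have h := Finset.card_le_card (Finset.mem_powerset.1 hS)
    rw [Nat.succ_sub h, pow_succ]
    ring
  · refine Finset.sum_congr rfl fun S hS => ?_
    have h1 : a ∉ S := fun h => ha (Finset.mem_powerset.1 hS h)
    rw [Finset.card_insert_of_notMem h1, Nat.add_sub_add_right, pow_succ]
    ring

theorem E_sub (t : ℝ) (R : Finset G) (F F' : Finset G → ℝ) :
    E t R (fun S => F S - F' S) = E t R F - E t R F' := by
  unfold E
  rw [← Finset.sum_sub_distrib]
  exact Finset.sum_congr rfl fun S _ => by ring

theorem E_mono {t : ℝ} (h0 : 0 ≤ t) (h1 : t ≤ 1) {R : Finset G} {F F' : Finset G → ℝ}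
    (h : ∀ S ⊆ R, F S ≤ F' S) : E t R F ≤ E t R F' := by
  unfold E
  refine Finset.sum_le_sum fun S hS => ?_
  exact mul_le_mul_of_nonneg_left (h S (Finset.mem_powerset.1 hS))
    (mul_nonneg (pow_nonneg h0 _) (pow_nonneg (by linarith) _))

theorem E_nonneg {t : ℝ} (h0 : 0 ≤ t) (h1 : t ≤ 1) {R : Finset G} {F : Finset G → ℝ}
    (h : ∀ S ⊆ R, 0 ≤ F S) : 0 ≤ E t R F := by
  unfold E
  refine Finset.sum_nonneg fun S hS => ?_
  exact mul_nonneg (mul_nonneg (pow_nonneg h0 _) (pow_nonneg (by linarith) _))
    (h S (Finset.mem_powerset.1 hS))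

theorem E_zero {t : ℝ} {R : Finset G} {F : Finset G → ℝ}
    (h : ∀ S ⊆ R, F S = 0) : E t R F = 0 := by
  unfold E
  refine Finset.sum_eq_zero fun S hS => ?_
  rw [h S (Finset.mem_powerset.1 hS), mul_zero]

theorem E_at_zero (R : Finset G) (F : Finset G → ℝ) : E 0 R F = F ∅ := by
  induction R using Finset.induction_on generalizing F with
  | empty => exact E_empty _ _
  | insert a R ha ih =>
    rw [E_insert ha, ih]
    ring

theorem E_at_one (R : Finset G) (F : Finset G → ℝ) : E 1 R F = F R := by
  induction R using Finset.induction_on generalizing F with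
  | empty => exact E_empty _ _
  | insert a R ha ih =>
    rw [E_insert ha, ih, ih]
    ring

/-- dummy coordinates can be dropped -/
theorem E_dummy {t : ℝ} {R R' : Finset G} (hR : R ⊆ R') {F : Finset G → ℝ}
    (h : ∀ S ⊆ R', ∀ a ∈ R', a ∉ R → a ∉ S → F (insert a S) = F S) :
    E t R' F = E t R F := by
  obtain ⟨W, hW, rfl⟩ : ∃ W, Disjoint W R ∧ W ∪ R = R' :=
    ⟨R' \ R, Finset.sdiff_disjoint, Finset.sdiff_union_of_subset hR⟩
  clear hR
  induction W using Finset.induction_on generalizing F with
  | empty => simp
  | insert a W ha ih =>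
    have haR : a ∉ R := Finset.disjoint_left.1 hW (Finset.mem_insert_self a W)
    have hWR : Disjoint W R := Finset.disjoint_of_subset_left (Finset.subset_insert a W) hW
    have ha' : a ∉ W ∪ R := by
      rw [Finset.mem_union]
      exact fun h => h.elim ha haR
    rw [Finset.insert_union, E_insert ha']
    have h1 : E t (W ∪ R) (fun S => F (insert a S)) = E t (W ∪ R) F := by
      refine E_congr fun S hS => ?_
      refine h S ?_ a ?_ haR fun h => ha' (hS h)
      · rw [Finset.insert_union]
        exact hS.trans (Finset.subset_insert _ _)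
      · rw [Finset.insert_union]
        exact Finset.mem_insert_self _ _
    rw [h1]
    have h2 : (1 - t) * E t (W ∪ R) F + t * E t (W ∪ R) F = E t (W ∪ R) F := by ring
    rw [h2]
    refine ih hWR (fun S hS b hb hbR hbS => ?_)
    refine h S ?_ b ?_ hbR hbS
    · rw [Finset.insert_union]
      exact hS.trans (Finset.subset_insert _ _)
    · rw [Finset.insert_union]
      exact Finset.mem_insert_of_mem hb

theorem E_image {t : ℝ} {R : Finset G} {e : G → G} (he : Function.Injective e)
    (F : Finset G → ℝ) : E t (R.image e) F = E t R (fun S => F (S.image e)) := by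
  induction R using Finset.induction_on generalizing F with
  | empty => simp [E_empty]
  | insert a R ha ih =>
    have ha' : e a ∉ R.image e := by
      rw [Finset.mem_image]
      rintro ⟨b, hb, hab⟩
      exact ha (he hab ▸ hb)
    rw [Finset.image_insert, E_insert ha', E_insert ha, ih, ih]
    simp only [Finset.image_insert]

theorem hasDerivAt_E (R : Finset G) (F : Finset G → ℝ) (t : ℝ) :
    HasDerivAt (fun t => E t R F)
      (∑ u ∈ R, E t (R.erase u) (fun S => F (insert u S) - F S)) t := by
  induction R using Finset.induction_on generalizing F with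
  | empty =>
    simp only [E_empty, Finset.sum_empty]
    exact hasDerivAt_const _ _
  | insert a R ha ih =>
    have h1 : (fun t => E t (insert a R) F) =
        fun t => (1 - t) * E t R F + t * E t R (fun S => F (insert a S)) := by
      funext t
      exact E_insert ha F
    rw [h1]
    have h2 := (((hasDerivAt_id t).const_sub 1).mul (ih F)).add
      ((hasDerivAt_id t).mul (ih (fun S => F (insert a S))))
    refine h2.congr_deriv ?_
    rw [Finset.sum_insert ha, Finset.erase_insert ha, E_sub]
    have h3 : ∀ u ∈ R, E t ((insert a R).erase u) (fun S => F (insert u S) - F S) =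
        (1 - t) * E t (R.erase u) (fun S => F (insert u S) - F S) +
          t * E t (R.erase u) (fun S => F (insert a (insert u S)) - F (insert a S)) := by
      intro u hu
      have hne : a ≠ u := fun h => ha (h ▸ hu)
      rw [Finset.erase_insert_of_ne hne, E_insert (fun h => ha (Finset.mem_of_mem_erase h))]
      simp only [Finset.insert_comm a u]
    rw [Finset.sum_congr rfl h3, Finset.sum_add_distrib, ← Finset.mul_sum, ← Finset.mul_sum]
    simp only [id]
    ring

end Pool.Agent.R546.MK
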