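import Pool.Agent.R546.MK.Ent
import Pool.Agent.R546.MK.Rus

/-!
# The star inequality for block functions of an i.i.d. family indexed by a group
-/

set_option autoImplicit false
set_option linter.unusedSectionVars false

namespace Pool.Agent.R546.MK

open MeasureTheory ProbabilityTheory

/-- the shift -/
def T {G K : Type*} [Group G] (v : G) (x : G → K) : G → K := fun h => x (h * v)

theorem T_T {G K : Type*} [Group G] (s w : G) (x : G → K) : T s (T w x) = T (s * w) x := by
  funext h
  simp [T, mul_assoc]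

theorem T_one {G K : Type*} [Group G] (x : G → K) : T 1 x = x := by
  funext h
  simp [T]

/-- the coordinates in `S` -/
def co {G K : Type*} (S : Finset G) (x : G → K) : S → K := fun i => x i

section

variable {G : Type*} [Group G] [DecidableEq G] {K : Type*} [Fintype K] [Nonempty K]
  [MeasurableSpace K] [MeasurableSingletonClass K] {α β : Type*} [Fintype α] [Fintype β]

theorem measurable_T (v : G) : Measurable (T v : (G → K) → G → K) := by
  unfold T
  fun_prop

theorem FM_coord (i : G) : FM (fun x : G → K => x i) := by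
  intro s
  exact measurable_pi_apply i s.toFinite.measurableSet

theorem FM_co (S : Finset G) : FM (co S : (G → K) → S → K) := FM.pi fun i => FM_coord (i : G)

/-- extension of a configuration on `B` -/
noncomputable def ex (B : Finset G) (y : B → K) : G → K :=
  fun h => if hh : h ∈ B then y ⟨h, hh⟩ else Classical.arbitrary K

theorem ex_spec {B : Finset G} {Z : (G → K) → α} (h : DependsOn Z (B : Set G)) (x : G → K) :
    Z (ex B (co B x)) = Z x := by
  refine h fun i hi => ?_
  have hi' : i ∈ B := hi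
  simp [ex, co, hi']

theorem FM_dep {B : Finset G} {Z : (G → K) → α} (h : DependsOn Z (B : Set G)) : FM Z := by
  have h1 : Z = fun x => (fun y => Z (ex B y)) (co B x) := by
    funext x
    exact (ex_spec h x).symm
  rw [h1]
  exact (FM_co (K := K) B).comp (fun y => Z (ex B y))

theorem dep_co (S : Finset G) : DependsOn (co S : (G → K) → S → K) (S : Set G) := by
  intro x y h
  funext i
  exact h i i.2

theorem dep_mono {Z : (G → K) → α} {B C : Set G} (h : DependsOn Z B) (hBC : B ⊆ C) :
    DependsOn Z C := fun _ _ hxy => h fun i hi => hxy i (hBC hi)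

theorem dep_pair {Z : (G → K) → α} {Y : (G → K) → β} {B C : Set G} (h : DependsOn Z B)
    (h' : DependsOn Y C) : DependsOn (fun x => (Z x, Y x)) (B ∪ C) := by
  intro x y hxy
  exact Prod.ext (h fun i hi => hxy i (Or.inl hi)) (h' fun i hi => hxy i (Or.inr hi))

theorem dep_T {Z : (G → K) → α} {B : Finset G} (h : DependsOn Z (B : Set G)) (w : G) :
    DependsOn (fun x => Z (T w x)) ((B.image (· * w) : Finset G) : Set G) := by
  intro x y hxy
  refine h fun i hi => ?_
  refine hxy _ ?_
  rw [Finset.coe_image]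
  exact ⟨i, hi, rfl⟩

variable (ν : Measure K) [IsProbabilityMeasure ν]

/-- the i.i.d. measure -/
noncomputable def bern (G : Type*) {K : Type*} [MeasurableSpace K] (ν : Measure K)
    [IsProbabilityMeasure ν] : Measure (G → K) := Measure.infinitePi (fun _ => ν)

instance : IsProbabilityMeasure (bern G ν) := by
  unfold bern
  infer_instance

theorem map_T (v : G) : (bern G ν).map (T v) = bern G ν :=
  Measure.map_infinitePi_infinitePi_of_inj (P := fun _ : G => ν) (mul_left_injective v)

theorem Hm_T {X : (G → K) → α} (hX : FM X) (v : G) :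
    Hm (bern G ν) (fun x => X (T v x)) = Hm (bern G ν) X := by
  unfold Hm
  congr 1
  funext a
  unfold law
  conv_rhs => rw [← map_T ν v]
  rw [map_measureReal_apply (measurable_T v) (hX _)]
  rfl

theorem indep_dep {B C : Finset G} (hBC : Disjoint B C) {X : (G → K) → α} {Y : (G → K) → β}
    (hX : DependsOn X (B : Set G)) (hY : DependsOn Y (C : Set G)) (a : α) (b : β) :
    (bern G ν).real (X ⁻¹' {a} ∩ Y ⁻¹' {b}) = law (bern G ν) X a * law (bern G ν) Y b := by
  have h1 : iIndepFun (fun (i : G) (x : G → K) => x i) (bern G ν) :=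
    iIndepFun_infinitePi (P := fun _ : G => ν) (X := fun _ k => k) (fun _ => measurable_id)
  have h2 := h1.indepFun_finset B C hBC (fun i => measurable_pi_apply i)
  have h3 := h2.measure_inter_preimage_eq_mul (s := {y | X (ex B y) = a})
    (t := {y | Y (ex C y) = b}) (Set.toFinite _).measurableSet (Set.toFinite _).measurableSet
  have hs : (fun (x : G → K) (i : B) => x i) ⁻¹' {y | X (ex B y) = a} = X ⁻¹' {a} := by
    ext x
    have := ex_spec hX x
    simp only [Set.mem_preimage, Set.mem_ofPred_eq, Set.mem_singleton_iff]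
    exact Eq.congr_left this
  have ht : (fun (x : G → K) (i : C) => x i) ⁻¹' {y | Y (ex C y) = b} = Y ⁻¹' {b} := by
    ext x
    have := ex_spec hY x
    simp only [Set.mem_preimage, Set.mem_ofPred_eq, Set.mem_singleton_iff]
    exact Eq.congr_left this
  rw [hs, ht] at h3
  unfold law Measure.real
  rw [h3, ENNReal.toReal_mul]

theorem Hm_pair_insert {B : Finset G} {Z : (G → K) → α} (hZ : DependsOn Z (B : Set G))
    {S : Finset G} {a : G} (haB : a ∉ B) (haS : a ∉ S) :
    Hm (bern G ν) (fun x => (Z x, co (insert a S) x)) =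
      Hm (bern G ν) (fun x => (Z x, co S x)) + Hm (bern G ν) (fun x => x a) := by
  have hF := FM_dep hZ
  have hd : DependsOn (fun x : G → K => (Z x, co S x)) ((B ∪ S : Finset G) : Set G) := by
    rw [Finset.coe_union]
    exact dep_pair hZ (dep_co S)
  have hd' : DependsOn (fun x : G → K => x a) (({a} : Finset G) : Set G) := by
    intro x y h
    exact h a (by simp)
  have hdis : Disjoint (B ∪ S) {a} := by
    rw [Finset.disjoint_singleton_right, Finset.mem_union]
    exact fun h => h.elim haB haS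
  rw [← Hm_indep (FM_dep hd) (FM_coord a) (indep_dep ν hdis hd hd')]
  refine Hm_eq (hF.pair (FM_co _)) ((hF.pair (FM_co _)).pair (FM_coord a))
    (fun p => ((p.1, fun i : S => p.2 ⟨i, Finset.mem_insert_of_mem i.2⟩),
      p.2 ⟨a, Finset.mem_insert_self a S⟩))
    (fun q => (q.1.1, fun i : (insert a S : Finset G) =>
      if h : (i : G) ∈ S then q.1.2 ⟨i, h⟩ else q.2)) (fun x => rfl) (fun x => ?_)
  refine Prod.ext rfl ?_
  funext i
  show (if h : (i : G) ∈ S then co S x ⟨i, h⟩ else x a) = x i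
  split_ifs with h
  · rfl
  · rw [(Finset.mem_insert.1 i.2).resolve_right h]

theorem Hm_co_pair (S : Finset G) :
    Hm (bern G ν) (fun x : G → K => ((), co S x)) = Hm (bern G ν) (co S) := by
  refine Hm_eq ?_ (FM_co S) (fun p => p.2) (fun q => ((), q)) (fun x => rfl) (fun x => rfl)
  exact (FM_co S).comp (fun q => ((), q))

theorem Hm_co_insert {S : Finset G} {a : G} (haS : a ∉ S) :
    Hm (bern G ν) (co (insert a S) : (G → K) → _) =
      Hm (bern G ν) (co S : (G → K) → _) + Hm (bern G ν) (fun x => x a) := by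
  have hZ : DependsOn (fun _ : G → K => ()) ((∅ : Finset G) : Set G) := fun _ _ _ => rfl
  have h := Hm_pair_insert ν hZ (Finset.notMem_empty a) haS
  rwa [Hm_co_pair, Hm_co_pair] at h

/-- the information `Z` has on the coordinates in `S` -/
noncomputable def I (Z : (G → K) → α) (S : Finset G) : ℝ :=
  Hm (bern G ν) Z + Hm (bern G ν) (co S) - Hm (bern G ν) (fun x => (Z x, co S x))

/-- its increment -/
noncomputable def D (Z : (G → K) → α) (u : G) (S : Finset G) : ℝ :=
  I ν Z (insert u S) - I ν Z S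

theorem D_mono {Z' : (G → K) → β} (hZ' : FM Z') (φ : β → α) (u : G) (S : Finset G) :
    D ν (fun x => φ (Z' x)) u S ≤ D ν Z' u S := by
  have hZ : FM (fun x => φ (Z' x)) := hZ'.comp φ
  have h := Hm_submod (μ := bern G ν) hZ' (FM_co (insert u S)) (hZ.pair (FM_co S))
  have h1 : Hm (bern G ν) (fun x => (Z' x, co (insert u S) x, (φ (Z' x), co S x))) =
      Hm (bern G ν) (fun x => (Z' x, co (insert u S) x)) :=
    Hm_eq (hZ'.pair ((FM_co _).pair (hZ.pair (FM_co S)))) (hZ'.pair (FM_co _))
      (fun p => (p.1, p.2.1)) (fun q => (q.1, q.2, (φ q.1, fun i : S =>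
        q.2 ⟨i, Finset.mem_insert_of_mem i.2⟩))) (fun _ => rfl) (fun _ => rfl)
  have h2 : Hm (bern G ν) (fun x => (Z' x, (φ (Z' x), co S x))) =
      Hm (bern G ν) (fun x => (Z' x, co S x)) :=
    Hm_eq (hZ'.pair (hZ.pair (FM_co S))) (hZ'.pair (FM_co _))
      (fun p => (p.1, p.2.2)) (fun q => (q.1, (φ q.1, q.2))) (fun _ => rfl) (fun _ => rfl)
  have h3 : Hm (bern G ν) (fun x => (co (insert u S) x, (φ (Z' x), co S x))) =
      Hm (bern G ν) (fun x => (φ (Z' x), co (insert u S) x)) :=
    Hm_eq ((FM_co _).pair (hZ.pair (FM_co S))) (hZ.pair (FM_co _))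
      (fun p => (p.2.1, p.1)) (fun q => (q.2, (q.1, fun i : S =>
        q.2 ⟨i, Finset.mem_insert_of_mem i.2⟩))) (fun _ => rfl) (fun _ => rfl)
  rw [h1, h2, h3] at h
  unfold D I
  linarith

theorem D_nonneg {Z : (G → K) → α} (hZ : FM Z) (u : G) (S : Finset G) : 0 ≤ D ν Z u S := by
  have h := D_mono ν hZ (fun _ => ()) u S
  have h1 : D ν (fun _ : G → K => ()) u S = 0 := by
    unfold D I
    rw [Hm_co_pair, Hm_co_pair]
    ring
  rwa [h1] at h

theorem FM_T {γ : Type*} {X : (G → K) → γ} (hX : FM X) (w : G) : FM (fun x => X (T w x)) :=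
  fun s => measurable_T w (hX s)

theorem D_T {Z : (G → K) → α} (hZ : FM Z) (w u : G) (S : Finset G) :
    D ν (fun x => Z (T w x)) (u * w) (S.image (· * w)) = D ν Z u S := by
  have key : ∀ R : Finset G, I ν (fun x => Z (T w x)) (R.image (· * w)) = I ν Z R := by
    intro R
    have hinj : Function.Injective (· * w) := mul_left_injective w
    have h1 : Hm (bern G ν) (co (R.image (· * w)) : (G → K) → _) = Hm (bern G ν) (co R) := by
      rw [← Hm_T ν (FM_co R) w]
      refine Hm_eq (FM_co _) (FM_T (FM_co R) w)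
        (fun p (i : R) => p ⟨(i : G) * w, Finset.mem_image_of_mem _ i.2⟩)
        (fun q (i : (R.image (· * w) : Finset G)) => q ⟨(i : G) * w⁻¹, ?_⟩) (fun _ => rfl)
        (fun x => ?_)
      · obtain ⟨j, hj, hji⟩ := Finset.mem_image.1 i.2
        rw [← hji]
        simpa using hj
      · funext i
        simp [co, T]
    have h2 : Hm (bern G ν) (fun x => (Z (T w x), co (R.image (· * w)) x)) =
        Hm (bern G ν) (fun x => (Z x, co R x)) := by
      rw [← Hm_T ν (hZ.pair (FM_co R)) w]
      refine Hm_eq ((FM_T hZ w).pair (FM_co _)) (FM_T (hZ.pair (FM_co R)) w)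
        (fun p => (p.1, fun (i : R) => p.2 ⟨(i : G) * w, Finset.mem_image_of_mem _ i.2⟩))
        (fun q => (q.1, fun (i : (R.image (· * w) : Finset G)) => q.2 ⟨(i : G) * w⁻¹, ?_⟩))
        (fun _ => rfl) (fun x => ?_)
      · obtain ⟨j, hj, hji⟩ := Finset.mem_image.1 i.2
        rw [← hji]
        simpa using hj
      · refine Prod.ext rfl ?_
        funext i
        simp [co, T]
    unfold I
    rw [Hm_T ν hZ w, h1, h2]
  unfold D
  rw [← key, ← key, Finset.image_insert]

theorem D_dummy {B : Finset G} {Z : (G → K) → α} (hZ : DependsOn Z (B : Set G)) {u a : G}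
    {S : Finset G} (haB : a ∉ B) (hau : a ≠ u) (haS : a ∉ S) :
    D ν Z u (insert a S) = D ν Z u S := by
  have h1 : a ∉ insert u S := by
    rw [Finset.mem_insert]
    exact fun h => h.elim hau haS
  unfold D I
  rw [Finset.insert_comm u a S, Hm_pair_insert ν hZ haB h1, Hm_pair_insert ν hZ haB haS,
    Hm_co_insert ν h1, Hm_co_insert ν haS]
  ring

theorem D_zero {B : Finset G} {Z : (G → K) → α} (hZ : DependsOn Z (B : Set G)) {u : G}
    {S : Finset G} (huB : u ∉ B) (huS : u ∉ S) : D ν Z u S = 0 := by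
  unfold D I
  rw [Hm_pair_insert ν hZ huB huS, Hm_co_insert ν huS]
  ring

theorem I_empty {Z : (G → K) → α} (hZ : FM Z) : I ν Z ∅ = 0 := by
  have h1 : Hm (bern G ν) (co ∅ : (G → K) → _) = 0 := by
    have h : (co ∅ : (G → K) → (∅ : Finset G) → K) = fun _ => fun i => absurd i.2 (Finset.notMem_empty _) := by
      funext x i
      exact absurd i.2 (Finset.notMem_empty _)
    rw [h]
    exact Hm_const _
  have h2 : Hm (bern G ν) (fun x => (Z x, co ∅ x)) = Hm (bern G ν) Z := by
    refine Hm_eq (hZ.pair (FM_co ∅)) hZ (fun p => p.1) (fun q => (q, fun i => absurd i.2 (Finset.notMem_empty _)))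
      (fun _ => rfl) (fun x => ?_)
    refine Prod.ext rfl ?_
    funext i
    exact absurd i.2 (Finset.notMem_empty _)
  unfold I
  rw [h1, h2]
  ring

theorem I_full {B R : Finset G} (hBR : B ⊆ R) {Z : (G → K) → α}
    (hZ : DependsOn Z (B : Set G)) : I ν Z R = Hm (bern G ν) Z := by
  have h2 : Hm (bern G ν) (fun x => (Z x, co R x)) = Hm (bern G ν) (co R) := by
    refine Hm_eq ((FM_dep hZ).pair (FM_co R)) (FM_co R) (fun p => p.2)
      (fun q => (Z (ex R q), q)) (fun _ => rfl) (fun x => ?_)
    refine Prod.ext ?_ rfl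
    exact ex_spec (dep_mono hZ (by exact_mod_cast hBR)) x
  unfold I
  rw [h2]
  ring

theorem term_eq {t : ℝ} {R W : Finset G} {Z : (G → K) → α} (hZ : DependsOn Z (R : Set G))
    {u : G} (h1 : (1 : G) ∉ W) (hW : (R.erase u).image (· * u⁻¹) ⊆ W) :
    E t (R.erase u) (D ν Z u) = E t W (D ν (fun x => Z (T u⁻¹ x)) 1) := by
  have h2 : E t (R.erase u) (D ν Z u) =
      E t (R.erase u) (fun S => D ν (fun x => Z (T u⁻¹ x)) 1 (S.image (· * u⁻¹))) := by
    refine E_congr fun S _ => ?_
    have := D_T ν (FM_dep hZ) u⁻¹ u S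
    rw [mul_inv_cancel] at this
    exact this.symm
  rw [h2, ← E_image (mul_left_injective u⁻¹)]
  symm
  refine E_dummy hW fun S hS a ha haR haS => ?_
  refine D_dummy ν (dep_T hZ u⁻¹) ?_ ?_ haS
  · intro h
    obtain ⟨b, hb, hba⟩ := Finset.mem_image.1 h
    refine haR (Finset.mem_image.2 ⟨b, Finset.mem_erase.2 ⟨?_, hb⟩, hba⟩)
    rintro rfl
    rw [mul_inv_cancel] at hba
    exact h1 (hba ▸ ha)
  · rintro rfl
    exact h1 ha

/-- **The star inequality** for block functions. -/
theorem star_ineq {O J : Type*} [Fintype O] [DecidableEq O] [Fintype J] (s : O → G) (c : G → O)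
    (w : G → J → G) (hw : ∀ v j, s (c (w v j)) * w v j = v)
    (hinj : ∀ v, Function.Injective (w v)) {B : Finset G} {Z : (G → K) → α}
    (hZ : DependsOn Z (B : Set G)) :
    Fintype.card J * Hm (bern G ν) Z ≤ Hm (bern G ν) (fun x (o : O) => Z (T (s o) x)) := by
  classical
  set R : Finset G := B ∪ Finset.univ.biUnion fun o => B.image (· * s o) with hR
  set X : (G → K) → O → α := fun x o => Z (T (s o) x) with hX
  have hBR : B ⊆ R := Finset.subset_union_left
  have hXdep : DependsOn X (R : Set G) := by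
    intro x y hxy
    funext o
    refine dep_T hZ (s o) fun i hi => hxy i ?_
    have hi' : i ∈ B.image (· * s o) := hi
    exact Finset.mem_coe.2 (Finset.mem_union_right _
      (Finset.mem_biUnion.2 ⟨o, Finset.mem_univ _, hi'⟩))
  have hZR : DependsOn Z (R : Set G) := dep_mono hZ (by exact_mod_cast hBR)
  set W : Finset G := (R.biUnion fun u => (R.erase u).image (· * u⁻¹)) with hW
  have h1W : (1 : G) ∉ W := by
    intro h
    obtain ⟨u, hu, h⟩ := Finset.mem_biUnion.1 h
    obtain ⟨b, hb, hb1⟩ := Finset.mem_image.1 h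
    have : b = u := by
      have := mul_inv_eq_one.1 hb1
      exact this
    exact (Finset.mem_erase.1 hb).1 this
  have hsub : ∀ u ∈ R, (R.erase u).image (· * u⁻¹) ⊆ W := fun u hu =>
    Finset.subset_biUnion_of_mem (fun u => (R.erase u).image (· * u⁻¹)) hu
  set Q : ℝ → ℝ := fun t => E t R (I ν X) - Fintype.card J * E t R (I ν Z) with hQ
  have hder : ∀ t, HasDerivAt Q
      (∑ u ∈ R, E t W (D ν (fun x => X (T u⁻¹ x)) 1) -
        Fintype.card J * ∑ u ∈ R, E t W (D ν (fun x => Z (T u⁻¹ x)) 1)) t := by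
    intro t
    have h1 := (hasDerivAt_E R (I ν X) t).sub
      ((hasDerivAt_E R (I ν Z) t).const_mul (Fintype.card J : ℝ))
    refine h1.congr_deriv ?_
    congr 1
    · exact Finset.sum_congr rfl fun u hu => term_eq ν hXdep h1W (hsub u hu)
    · congr 1
      exact Finset.sum_congr rfl fun u hu => term_eq ν hZR h1W (hsub u hu)
  have hnonneg : ∀ t, 0 ≤ t → t ≤ 1 → 0 ≤
      (∑ u ∈ R, E t W (D ν (fun x => X (T u⁻¹ x)) 1) -
        Fintype.card J * ∑ u ∈ R, E t W (D ν (fun x => Z (T u⁻¹ x)) 1)) := by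
    intro t h0 h1
    have hFX : ∀ v : G, FM (fun x => X (T v x)) := fun v s => measurable_T v (FM_dep hXdep s)
    have ha : ∑ u ∈ R, E t W (D ν (fun x => Z (T u⁻¹ x)) 1) =
        ∑ u ∈ B, E t W (D ν (fun x => Z (T u⁻¹ x)) 1) := by
      symm
      refine Finset.sum_subset hBR fun u _ huB => ?_
      refine E_zero fun S hS => ?_
      refine D_zero ν (dep_T hZ u⁻¹) ?_ fun h => h1W (hS h)
      intro h
      obtain ⟨b, hb, hb1⟩ := Finset.mem_image.1 h
      exact huB (mul_inv_eq_one.1 hb1 ▸ hb)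
    have hb : Fintype.card J * ∑ u ∈ B, E t W (D ν (fun x => Z (T u⁻¹ x)) 1) =
        ∑ p ∈ B ×ˢ (Finset.univ : Finset J), E t W (D ν (fun x => Z (T p.1⁻¹ x)) 1) := by
      rw [Finset.sum_product, Finset.mul_sum]
      refine Finset.sum_congr rfl fun u _ => ?_
      simp
    have hc : ∑ p ∈ B ×ˢ (Finset.univ : Finset J), E t W (D ν (fun x => Z (T p.1⁻¹ x)) 1) ≤
        ∑ p ∈ B ×ˢ (Finset.univ : Finset J), E t W (D ν (fun x => X (T (w p.1⁻¹ p.2) x)) 1) := by
      refine Finset.sum_le_sum fun p _ => ?_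
      refine E_mono h0 h1 fun S _ => ?_
      have h := D_mono ν (hFX (w p.1⁻¹ p.2)) (fun y => y (c (w p.1⁻¹ p.2))) 1 S
      have h' : (fun x => X (T (w p.1⁻¹ p.2) x) (c (w p.1⁻¹ p.2))) =
          fun x => Z (T p.1⁻¹ x) := by
        funext x
        show Z (T (s (c (w p.1⁻¹ p.2))) (T (w p.1⁻¹ p.2) x)) = _
        rw [T_T, hw]
      rw [h'] at h
      exact h
    have hd : ∑ p ∈ B ×ˢ (Finset.univ : Finset J), E t W (D ν (fun x => X (T (w p.1⁻¹ p.2) x)) 1)
        ≤ ∑ u ∈ R, E t W (D ν (fun x => X (T u⁻¹ x)) 1) := by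
      have hi : Set.InjOn (fun p : G × J => (w p.1⁻¹ p.2)⁻¹)
          (B ×ˢ (Finset.univ : Finset J) : Finset (G × J)) := by
        rintro ⟨u, j⟩ _ ⟨u', j'⟩ _ h
        have h' : w u⁻¹ j = w u'⁻¹ j' := inv_injective h
        have h2 := hw u⁻¹ j
        rw [h', hw] at h2
        have h3 : u' = u := inv_injective h2
        subst h3
        rw [hinj _ h']
      have he : ∑ p ∈ B ×ˢ (Finset.univ : Finset J), E t W (D ν (fun x => X (T (w p.1⁻¹ p.2) x)) 1)
          = ∑ u ∈ (B ×ˢ (Finset.univ : Finset J)).image (fun p => (w p.1⁻¹ p.2)⁻¹),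
            E t W (D ν (fun x => X (T u⁻¹ x)) 1) := by
        rw [Finset.sum_image hi]
        simp only [inv_inv]
      rw [he]
      refine Finset.sum_le_sum_of_subset_of_nonneg ?_ fun u _ _ =>
        E_nonneg h0 h1 fun S _ => D_nonneg ν (hFX _) _ _
      intro u hu
      obtain ⟨⟨v, j⟩, hp, rfl⟩ := Finset.mem_image.1 hu
      have hv : v ∈ B := (Finset.mem_product.1 hp).1
      refine Finset.mem_union_right _ (Finset.mem_biUnion.2
        ⟨c (w v⁻¹ j), Finset.mem_univ _, Finset.mem_image.2 ⟨v, hv, ?_⟩⟩)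
      have h2 := hw v⁻¹ j
      show v * s (c (w v⁻¹ j)) = (w v⁻¹ j)⁻¹
      rw [eq_inv_iff_mul_eq_one, mul_assoc, h2, mul_inv_cancel]
    rw [ha, hb]
    linarith
  have hmono : MonotoneOn Q (Set.Icc 0 1) := by
    refine monotoneOn_of_deriv_nonneg (convex_Icc 0 1)
      (fun t _ => (hder t).continuousAt.continuousWithinAt)
      (fun t _ => (hder t).differentiableAt.differentiableWithinAt) fun t ht => ?_
    rw [interior_Icc] at ht
    rw [(hder t).deriv]
    exact hnonneg t ht.1.le ht.2.le
  have h01 := hmono (Set.left_mem_Icc.2 zero_le_one) (Set.right_mem_Icc.2 zero_le_one)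
    (zero_le_one : (0 : ℝ) ≤ 1)
  simp only [hQ, E_at_zero, E_at_one] at h01
  rw [I_empty ν (FM_dep hXdep), I_empty ν (FM_dep hZ), I_full ν (Finset.Subset.refl R) hXdep,
    I_full ν hBR hZ] at h01
  linarith

end

end Pool.Agent.R546.MK
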