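import Pool.Agent.H137R2.PFR.Basic

/-!
# Entropy of finite-valued random variables on a probability space
-/

set_option autoImplicit false
set_option linter.unusedSectionVars false

namespace Pool.Agent.R546.MK

open MeasureTheory
open H137.PFR (Law push ent)

section

variable {Ω : Type*} [MeasurableSpace Ω] {α β γ : Type*}

/-- all preimages are measurable -/
def FM (X : Ω → α) : Prop := ∀ s : Set α, MeasurableSet (X ⁻¹' s)

theorem FM.comp {X : Ω → α} (hX : FM X) (f : α → β) : FM (fun x => f (X x)) :=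
  fun s => hX (f ⁻¹' s)

theorem FM.pair [Finite α] [Finite β] {X : Ω → α} {Y : Ω → β} (hX : FM X) (hY : FM Y) :
    FM (fun x => (X x, Y x)) := by
  intro s
  have h : (fun x => (X x, Y x)) ⁻¹' s = ⋃ p ∈ s, (X ⁻¹' {p.1} ∩ Y ⁻¹' {p.2}) := by
    ext x
    simp only [Set.mem_preimage, Set.mem_iUnion, Set.mem_inter_iff, Set.mem_singleton_iff,
      exists_prop]
    constructor
    · intro h
      exact ⟨_, h, rfl, rfl⟩
    · rintro ⟨p, hp, h1, h2⟩
      rw [h1, h2]
      exact hp
  rw [h]
  exact MeasurableSet.biUnion (Set.to_countable s) fun p _ => (hX _).inter (hY _)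

theorem FM.pi {ι : Type*} [Finite ι] [Finite α] {X : ι → Ω → α} (hX : ∀ i, FM (X i)) :
    FM (fun x i => X i x) := by
  intro s
  have h : (fun x i => X i x) ⁻¹' s = ⋃ p ∈ s, ⋂ i, X i ⁻¹' {p i} := by
    ext x
    simp only [Set.mem_preimage, Set.mem_iUnion, Set.mem_iInter, Set.mem_singleton_iff,
      exists_prop]
    constructor
    · intro h
      exact ⟨_, h, fun i => rfl⟩
    · rintro ⟨p, hp, h1⟩
      have : (fun i => X i x) = p := funext h1
      rw [this]
      exact hp
  rw [h]
  exact MeasurableSet.biUnion (Set.to_countable s) fun p _ => MeasurableSet.iInter fun i => hX i _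

/-- the law of a random variable -/
noncomputable def law (μ : Measure Ω) (X : Ω → α) (a : α) : ℝ := μ.real (X ⁻¹' {a})

/-- the entropy of a random variable -/
noncomputable def Hm [Fintype α] (μ : Measure Ω) (X : Ω → α) : ℝ := ent (law μ X)

variable {μ : Measure Ω} [IsProbabilityMeasure μ] [Fintype α] [Fintype β] [Fintype γ]

theorem sum_law (X : Ω → α) (hX : FM X) (s : Finset α) :
    ∑ a ∈ s, law μ X a = μ.real (X ⁻¹' (s : Set α)) := by
  classical
  induction s using Finset.induction_on with
  | empty => simp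
  | insert a s ha ih =>
    rw [Finset.sum_insert ha, ih, Finset.coe_insert, Set.insert_eq, Set.preimage_union]
    rw [measureReal_union _ (hX _)]
    · rfl
    · rw [Set.disjoint_left]
      rintro x hx hx'
      simp only [Set.mem_preimage, Set.mem_singleton_iff, Finset.mem_coe] at hx hx'
      rw [hx] at hx'
      exact ha hx'

theorem isLaw_law (X : Ω → α) (hX : FM X) : Law (law μ X) := by
  refine ⟨fun _ => measureReal_nonneg, ?_⟩
  rw [sum_law X hX]
  simp

theorem push_law (W : Ω → α) (hW : FM W) (f : α → β) :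
    push (law μ W) f = law μ (fun x => f (W x)) := by
  classical
  funext b
  unfold push
  rw [← Finset.sum_filter, sum_law W hW]
  unfold law
  congr 1
  ext x
  simp

theorem Hm_comp (W : Ω → α) (hW : FM W) (f : α → β) :
    Hm μ (fun x => f (W x)) = H137.PFR.H (law μ W) f := by
  unfold Hm H137.PFR.H
  rw [push_law W hW]

theorem Hm_submod {X : Ω → α} {Y : Ω → β} {Z : Ω → γ} (hX : FM X) (hY : FM Y) (hZ : FM Z) :
    Hm μ (fun x => (X x, Y x, Z x)) + Hm μ Z ≤
      Hm μ (fun x => (X x, Z x)) + Hm μ (fun x => (Y x, Z x)) := by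
  have hW : FM (fun x => (X x, Y x, Z x)) := hX.pair (hY.pair hZ)
  have h := H137.PFR.H_submod (isLaw_law (μ := μ) _ hW) (fun p => p.1) (fun p => p.2.1)
    (fun p => p.2.2)
  rw [← Hm_comp _ hW, ← Hm_comp _ hW (fun p => p.2.2), ← Hm_comp _ hW (fun p => (p.1, p.2.2)),
    ← Hm_comp _ hW (fun p => (p.2.1, p.2.2))] at h
  exact h

theorem Hm_le {X : Ω → α} (hX : FM X) (f : α → β) : Hm μ (fun x => f (X x)) ≤ Hm μ X := by
  have h := H137.PFR.H_comp_le (isLaw_law (μ := μ) X hX) (fun a => a) f
  rw [← Hm_comp X hX, ← Hm_comp X hX] at h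
  exact h

theorem Hm_eq {X : Ω → α} {Y : Ω → β} (hX : FM X) (hY : FM Y) (f : α → β) (g : β → α)
    (hf : ∀ x, f (X x) = Y x) (hg : ∀ x, g (Y x) = X x) : Hm μ X = Hm μ Y := by
  have h1 := Hm_le (μ := μ) hX f
  have h2 := Hm_le (μ := μ) hY g
  simp only [hf] at h1
  simp only [hg] at h2
  exact le_antisymm h2 h1

theorem ent_prod {w : α → ℝ} {w' : β → ℝ} (hw : Law w) (hw' : Law w') :
    ent (fun p : α × β => w p.1 * w' p.2) = ent w + ent w' := by
  unfold ent
  rw [Fintype.sum_prod_type]
  simp only [Real.negMulLog_mul, Finset.sum_add_distrib, ← Finset.mul_sum,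
    ← Finset.sum_mul, hw.2, hw'.2, one_mul]

theorem Hm_indep {X : Ω → α} {Y : Ω → β} (hX : FM X) (hY : FM Y)
    (h : ∀ a b, μ.real (X ⁻¹' {a} ∩ Y ⁻¹' {b}) = law μ X a * law μ Y b) :
    Hm μ (fun x => (X x, Y x)) = Hm μ X + Hm μ Y := by
  unfold Hm
  rw [← ent_prod (isLaw_law X hX) (isLaw_law Y hY)]
  congr 1
  funext p
  rw [← h]
  unfold law
  congr 1
  ext x
  simp [Prod.ext_iff]

theorem Hm_const (c : α) : Hm μ (fun _ : Ω => c) = 0 := by
  unfold Hm ent
  refine Finset.sum_eq_zero fun a _ => ?_
  unfold law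
  by_cases h : c = a
  · subst h
    have : (fun _ : Ω => c) ⁻¹' {c} = Set.univ := by ext; simp
    rw [this]
    simp
  · have : (fun _ : Ω => c) ⁻¹' {a} = ∅ := by ext; simp [h]
    rw [this]
    simp

theorem Hm_subadd {X : Ω → α} {Y : Ω → β} (hX : FM X) (hY : FM Y) :
    Hm μ (fun x => (X x, Y x)) ≤ Hm μ X + Hm μ Y := by
  have hW : FM (fun x => (X x, Y x)) := hX.pair hY
  have h := H137.PFR.H_subadd (isLaw_law (μ := μ) _ hW) (fun p => p.1) (fun p => p.2)
  rw [← Hm_comp _ hW, ← Hm_comp _ hW (fun p => p.1), ← Hm_comp _ hW (fun p => p.2)] at h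
  exact h

end

/-! ### The equality case -/

section

variable {ι C : Type*} [Fintype ι] [DecidableEq ι] [Fintype C]

theorem gibbs {P : (ι → C) → ℝ} (hP : Law P) {Q : C → ℝ} (hQ : Law Q)
    (hmarg : ∀ i, push P (fun c => c i) = Q) (h : Fintype.card ι * ent Q ≤ ent P) (c : ι → C) :
    P c = ∏ i, Q (c i) := by
  classical
  set φ : (ι → C) → ℝ := fun c => ∏ i, Q (c i) - P c -
    (P c * ∑ i, Real.log (Q (c i)) - P c * Real.log (P c)) with hφ
  have hle : ∀ i c, P c ≤ Q (c i) := by
    intro i c
    rw [← hmarg i]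
    unfold push
    have := Finset.single_le_sum (f := fun ω => if ω i = c i then P ω else 0)
      (fun ω _ => by
        show 0 ≤ if ω i = c i then P ω else 0
        split_ifs
        · exact hP.1 ω
        · exact le_rfl) (Finset.mem_univ c)
    simpa using this
  have key : ∀ c, 0 ≤ φ c ∧ (φ c = 0 → P c = ∏ i, Q (c i)) := by
    intro c
    rcases (hP.1 c).eq_or_lt with h0 | h0
    · have h1 : φ c = ∏ i, Q (c i) := by
        simp only [hφ, ← h0]
        ring
      rw [h1]
      exact ⟨Finset.prod_nonneg fun i _ => hQ.1 _, fun h => by rw [← h0, h]⟩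
    · have hpos : ∀ i, 0 < Q (c i) := fun i => h0.trans_le (hle i c)
      have hR : 0 < ∏ i, Q (c i) := Finset.prod_pos fun i _ => hpos i
      have hlog : ∑ i, Real.log (Q (c i)) = Real.log (∏ i, Q (c i)) :=
        (Real.log_prod (fun i _ => (hpos i).ne')).symm
      have h1 : φ c = P c * ((∏ i, Q (c i)) / P c - 1 - Real.log ((∏ i, Q (c i)) / P c)) := by
        simp only [hφ]
        rw [hlog, Real.log_div hR.ne' h0.ne']
        field_simp
      have hx : 0 < (∏ i, Q (c i)) / P c := div_pos hR h0
      constructor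
      · rw [h1]
        have := Real.log_le_sub_one_of_pos hx
        exact mul_nonneg h0.le (by linarith)
      · intro h2
        rw [h1] at h2
        have h3 := (mul_eq_zero.1 h2).resolve_left h0.ne'
        by_contra hne
        have hne' : (∏ i, Q (c i)) / P c ≠ 1 := by
          intro h4
          rw [div_eq_one_iff_eq h0.ne'] at h4
          exact hne h4.symm
        have := Real.log_lt_sub_one_of_pos hx hne'
        linarith
  have hsumR : ∑ c : ι → C, ∏ i, Q (c i) = 1 := by
    have h1 := Finset.prod_univ_sum (fun _ : ι => (Finset.univ : Finset C)) (fun _ a => Q a)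
    rw [Fintype.piFinset_univ] at h1
    rw [← h1, hQ.2, Finset.prod_const_one]
  have hsum : ∑ c, φ c = Fintype.card ι * ent Q - ent P := by
    simp only [hφ, Finset.sum_sub_distrib]
    rw [hsumR, hP.2]
    have h1 : ∑ c, P c * ∑ i, Real.log (Q (c i)) = -(Fintype.card ι * ent Q) := by
      simp only [Finset.mul_sum]
      rw [Finset.sum_comm]
      have h2 : ∀ i, ∑ c, P c * Real.log (Q (c i)) = - ent Q := by
        intro i
        have h3 : ∑ a, push P (fun c => c i) a * Real.log (Q a) = - ent Q := by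
          rw [hmarg i]
          unfold ent Real.negMulLog
          rw [← Finset.sum_neg_distrib]
          exact Finset.sum_congr rfl fun a _ => by ring
        rw [← h3]
        unfold push
        simp only [Finset.sum_mul]
        rw [Finset.sum_comm]
        refine Finset.sum_congr rfl fun c _ => ?_
        simp
      rw [Finset.sum_congr rfl fun i _ => h2 i]
      simp
    have h2 : ∑ c, P c * Real.log (P c) = - ent P := by
      unfold ent Real.negMulLog
      rw [← Finset.sum_neg_distrib]
      exact Finset.sum_congr rfl fun a _ => by ring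
    rw [h1, h2]
    ring
  have h0 : ∑ c, φ c = 0 := le_antisymm (by rw [hsum]; linarith)
    (Finset.sum_nonneg fun c _ => (key c).1)
  exact (key c).2 ((Finset.sum_eq_zero_iff_of_nonneg fun c _ => (key c).1).1 h0 c
    (Finset.mem_univ c))

end

end Pool.Agent.R546.MK
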