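import Pool.Agent.R546.MK.Noise

/-!
# No measurable kernel
-/

set_option autoImplicit false
set_option linter.unusedSectionVars false

namespace Pool.Agent.R546.MK

open MeasureTheory ProbabilityTheory Filter Topology

theorem key_identity {n : ℕ} {A : Set (FreeGroup (Fin n) → Bool)} (hA : MeasurableSet A)
    (hker : ∀ᵐ x ∂(bern (FreeGroup (Fin n)) unif),
      (x ∈ A ↔ ∀ i, T (FreeGroup.of i) x ∉ A)) (s : unitInterval) :
    qq A s = (1 - 2 * (bern (FreeGroup (Fin n)) unif).real A + qq A s) ^ n := by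
  set μ := bern (FreeGroup (Fin n)) (nu s) with hμ
  set A₁ : Set (FreeGroup (Fin n) → Bool × Bool) := fs ⁻¹' A with hA₁
  set A₂ : Set (FreeGroup (Fin n) → Bool × Bool) := sn ⁻¹' A with hA₂
  have hm₁ : MeasurableSet A₁ := measurable_fs hA
  have hm₂ : MeasurableSet A₂ := measurable_sn hA
  have hp₁ : μ.real A₁ = (bern (FreeGroup (Fin n)) unif).real A := by
    rw [← map_fs s, map_measureReal_apply measurable_fs hA]
  have hp₂ : μ.real A₂ = (bern (FreeGroup (Fin n)) unif).real A := by
    rw [← map_sn s, map_measureReal_apply measurable_sn hA]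
  have hae₁ : ∀ᵐ y ∂μ, (y ∈ A₁ ↔ ∀ i, T (FreeGroup.of i) y ∉ A₁) := by
    have h := hker
    rw [← map_fs s] at h
    exact ae_of_ae_map measurable_fs.aemeasurable h
  have hae₂ : ∀ᵐ y ∂μ, (y ∈ A₂ ↔ ∀ i, T (FreeGroup.of i) y ∉ A₂) := by
    have h := hker
    rw [← map_sn s] at h
    exact ae_of_ae_map measurable_sn.aemeasurable h
  set Z := ind A₁ A₂ with hZ
  have hFZ : FM Z := FM_ind hm₁ hm₂
  set L : (FreeGroup (Fin n) → Bool × Bool) → Fin n → Prop × Prop :=
    fun y i => Z (T (FreeGroup.of i) y) with hL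
  have hFL : FM L := FM.pi fun i => FM_T hFZ (FreeGroup.of i)
  set Φ : (Fin n → Prop × Prop) → Option (Fin n) → Prop × Prop :=
    fun l o => o.elim (∀ i, ¬ (l i).1, ∀ i, ¬ (l i).2) l with hΦ
  have hstar : Hm μ (fun y (o : Option (Fin n)) => Z (T (st o) y)) ≤ Hm μ L := by
    have h1 : law μ (fun y (o : Option (Fin n)) => Z (T (st o) y)) =
        law μ (fun y => Φ (L y)) := by
      refine law_congr ?_
      filter_upwards [hae₁, hae₂] with y h1 h2
      funext o
      rcases o with _ | i
      · show Z (T 1 y) = (∀ i, ¬ (L y i).1, ∀ i, ¬ (L y i).2)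
        rw [T_one]
        exact Prod.ext (propext h1) (propext h2)
      · rfl
    have h2 : Hm μ (fun y (o : Option (Fin n)) => Z (T (st o) y)) = Hm μ (fun y => Φ (L y)) := by
      unfold Hm
      rw [h1]
    rw [h2]
    exact Hm_le hFL Φ
  have hineq : (Fintype.card (Fin n) : ℝ) * Hm μ Z ≤ Hm μ L :=
    (star_meas (nu s) (J := Fin n) st cc ww ww_spec ww_inj hm₁ hm₂).trans hstar
  have hmarg : ∀ i, H137.PFR.push (law μ L) (fun c => c i) = law μ Z := by
    intro i
    rw [push_law L hFL]
    funext a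
    show law μ (fun y => Z (T (FreeGroup.of i) y)) a = law μ Z a
    unfold law
    conv_rhs => rw [hμ, ← map_T (nu s) (FreeGroup.of i)]
    rw [map_measureReal_apply (measurable_T _) (hFZ _)]
    rfl
  have hg := gibbs (isLaw_law L hFL) (isLaw_law Z hFZ) hmarg hineq (fun _ => (False, False))
  rw [Finset.prod_const, Finset.card_univ, Fintype.card_fin] at hg
  have h1 : law μ L (fun _ => (False, False)) = qq A s := by
    unfold law qq
    refine measureReal_congr ?_
    filter_upwards [hae₁, hae₂] with y h1 h2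
    apply propext
    show L y = (fun _ => (False, False)) ↔ (y ∈ A₁ ∧ y ∈ A₂)
    rw [h1, h2]
    constructor
    · intro h
      constructor
      · intro i hi
        have := congrArg Prod.fst (congrFun h i)
        exact this.mp hi
      · intro i hi
        have := congrArg Prod.snd (congrFun h i)
        exact this.mp hi
    · rintro ⟨h3, h4⟩
      funext i
      exact Prod.ext (eq_false (h3 i)) (eq_false (h4 i))
  have h2 : law μ Z (False, False) = 1 - 2 * (bern (FreeGroup (Fin n)) unif).real A + qq A s := by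
    have h3 : law μ Z (False, False) = μ.real (A₁ ∪ A₂)ᶜ := by
      unfold law
      congr 1
      ext y
      rw [Set.mem_compl_iff, Set.mem_union, not_or]
      constructor
      · intro h
        have h' : Z y = (False, False) := h
        exact ⟨fun h1 => (congrArg Prod.fst h').mp h1, fun h1 => (congrArg Prod.snd h').mp h1⟩
      · rintro ⟨h3, h4⟩
        exact Prod.ext (eq_false h3) (eq_false h4)
    have h4 := probReal_compl_eq_one_sub (μ := μ) (hm₁.union hm₂)
    have h5 := measureReal_union_add_inter (μ := μ) (s := A₁) hm₂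
    have h6 : μ.real (A₁ ∩ A₂) = qq A s := rfl
    rw [h3, h4]
    linarith
  rw [h1, h2] at hg
  exact hg

theorem no_kernel {n : ℕ} (hn : 2 ≤ n) {A : Set (FreeGroup (Fin n) → Bool)}
    (hA : MeasurableSet A) (hker : ∀ᵐ x ∂(bern (FreeGroup (Fin n)) unif),
      (x ∈ A ↔ ∀ i, T (FreeGroup.of i) x ∉ A)) : False := by
  set p : ℝ := (bern (FreeGroup (Fin n)) unif).real A with hp
  have hp0 : 0 ≤ p := measureReal_nonneg
  have hp1 : p ≤ 1 := measureReal_le_one
  have hkey := key_identity hA hker
  have hone := hkey 1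
  rw [qq_one A hA, ← hp] at hone
  have hone' : p = (1 - p) ^ n := by
    rw [show 1 - 2 * p + p = 1 - p by ring] at hone
    exact hone
  have hne0 : p ≠ 0 := by
    intro h
    rw [h] at hone'
    simp at hone'
  have hne1 : p ≠ 1 := by
    intro h
    rw [h, sub_self, zero_pow (by omega)] at hone'
    exact one_ne_zero hone'
  have hlt0 : 0 < p := lt_of_le_of_ne hp0 hne0.symm
  have hlt1 : p < 1 := lt_of_le_of_ne hp1 hne1
  have hmem : (p ^ 2 + p) / 2 ∈ Set.Icc (qq A hlf) (qq A 1) := by
    rw [qq_half hA, qq_one A hA, ← hp]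
    constructor <;> nlinarith
  obtain ⟨s, hs⟩ := intermediate_value_univ hlf 1 (qq_cont hA) hmem
  have h := hkey s
  rw [hs, ← hp] at h
  have hconv := (strictConvexOn_pow hn).2 (x := (1 - p) ^ 2) (y := 1 - p)
    (by rw [Set.mem_Ici]; positivity) (by rw [Set.mem_Ici]; linarith)
    (by intro h; nlinarith) (show (0 : ℝ) < 1 / 2 by norm_num) (show (0 : ℝ) < 1 / 2 by norm_num)
    (by norm_num)
  simp only [smul_eq_mul] at hconv
  have h3 : ((1 - p) ^ 2) ^ n = p ^ 2 := by
    rw [← pow_mul, mul_comm, pow_mul, ← hone']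
  rw [h3, ← hone'] at hconv
  have h4 : 1 / 2 * (1 - p) ^ 2 + 1 / 2 * (1 - p) = 1 - 2 * p + (p ^ 2 + p) / 2 := by ring
  rw [h4, ← h] at hconv
  linarith

end Pool.Agent.R546.MK
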