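import Pool.Agent.R546.MK.Apx

/-!
# Correlated pairs of configurations
-/

set_option autoImplicit false
set_option linter.unusedSectionVars false

namespace Pool.Agent.R546.MK

open MeasureTheory ProbabilityTheory Filter Topology

/-- the uniform distribution on two points -/
noncomputable def unif : Measure Bool :=
  (2⁻¹ : ENNReal) • (Measure.dirac true + Measure.dirac false)

instance : IsProbabilityMeasure unif := by
  constructor
  simp only [unif, Measure.smul_apply, Measure.add_apply, measure_univ, smul_eq_mul]
  rw [one_add_one_eq_two]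
  exact ENNReal.inv_mul_cancel (by norm_num) (by norm_num)

/-- the law of a pair of uniform bits that agree with probability `s` -/
noncomputable def nu (s : unitInterval) : Measure (Bool × Bool) :=
  ENNReal.ofReal (s / 2) • (Measure.dirac (true, true) + Measure.dirac (false, false)) +
    ENNReal.ofReal ((1 - s) / 2) • (Measure.dirac (true, false) + Measure.dirac (false, true))

theorem ofReal_add_half (s : unitInterval) :
    ENNReal.ofReal (s / 2) + ENNReal.ofReal ((1 - s) / 2) = 2⁻¹ := by
  have h0 := s.2.1
  have h1 := s.2.2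
  rw [← ENNReal.ofReal_add (by linarith) (by linarith)]
  have : (s : ℝ) / 2 + (1 - s) / 2 = 2⁻¹ := by ring
  rw [this, ENNReal.ofReal_inv_of_pos (by norm_num)]
  norm_num

theorem map_fst_nu (s : unitInterval) : (nu s).map Prod.fst = unif := by
  unfold nu unif
  rw [Measure.map_add _ _ measurable_fst, Measure.map_smul, Measure.map_smul,
    Measure.map_add _ _ measurable_fst, Measure.map_add _ _ measurable_fst,
    Measure.map_dirac' measurable_fst, Measure.map_dirac' measurable_fst,
    Measure.map_dirac' measurable_fst, Measure.map_dirac' measurable_fst]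
  rw [← add_smul, ofReal_add_half]

theorem map_snd_nu (s : unitInterval) : (nu s).map Prod.snd = unif := by
  unfold nu unif
  rw [Measure.map_add _ _ measurable_snd, Measure.map_smul, Measure.map_smul,
    Measure.map_add _ _ measurable_snd, Measure.map_add _ _ measurable_snd,
    Measure.map_dirac' measurable_snd, Measure.map_dirac' measurable_snd,
    Measure.map_dirac' measurable_snd, Measure.map_dirac' measurable_snd]
  show _ • (Measure.dirac true + Measure.dirac false) +
    _ • (Measure.dirac false + Measure.dirac true) = _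
  rw [add_comm (Measure.dirac false), ← add_smul, ofReal_add_half]

instance (s : unitInterval) : IsProbabilityMeasure (nu s) := by
  have h : IsProbabilityMeasure ((nu s).map Prod.fst) := by
    rw [map_fst_nu]
    infer_instance
  constructor
  have h1 := h.measure_univ
  rwa [Measure.map_apply measurable_fst MeasurableSet.univ, Set.preimage_univ] at h1

/-- the weights of `nu` -/
noncomputable def mm (s : ℝ) (p : Bool × Bool) : ℝ := if p.1 = p.2 then s / 2 else (1 - s) / 2

theorem nu_real (s : unitInterval) (p : Bool × Bool) : (nu s).real {p} = mm s p := by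
  have h0 := s.2.1
  have h1 := s.2.2
  have e1 : (ENNReal.ofReal (s / 2)).toReal = s / 2 := ENNReal.toReal_ofReal (by linarith)
  have e2 : (ENNReal.ofReal ((1 - s) / 2)).toReal = (1 - s) / 2 :=
    ENNReal.toReal_ofReal (by linarith)
  unfold Measure.real nu mm
  rcases p with ⟨_ | _, _ | _⟩ <;> simp [e1, e2]

theorem unif_real (b : Bool) : unif.real {b} = 1 / 2 := by
  unfold Measure.real unif
  cases b <;> simp

section

variable {G : Type*} [Group G] [DecidableEq G] {K : Type*} [Fintype K] [Nonempty K]
  [MeasurableSpace K] [MeasurableSingletonClass K]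

theorem law_co (ν : Measure K) [IsProbabilityMeasure ν] (B : Finset G) (z : B → K) :
    law (bern G ν) (co B) z = ∏ i, ν.real {z i} := by
  unfold law
  have h : (bern G ν).map (co B) = Measure.pi (fun _ : B => ν) :=
    Measure.infinitePi_map_restrict (μ := fun _ : G => ν)
  rw [← map_measureReal_apply (by unfold co; fun_prop) (MeasurableSet.singleton z), h]
  unfold Measure.real
  rw [Measure.pi_singleton, ENNReal.toReal_prod]

theorem map_pi (ν : Measure K) [IsProbabilityMeasure ν] {L : Type*} [MeasurableSpace L]
    (ν' : Measure L) [IsProbabilityMeasure ν'] {f : K → L} (hf : Measurable f)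
    (h : ν.map f = ν') :
    (bern G ν).map (fun y g => f (y g)) = Measure.infinitePi (fun _ : G => ν') := by
  subst h
  exact Measure.infinitePi_map_pi (μ := fun _ : G => ν) (fun _ => hf)

/-- the first configuration -/
def fs (y : G → Bool × Bool) : G → Bool := fun g => (y g).1

/-- the second configuration -/
def sn (y : G → Bool × Bool) : G → Bool := fun g => (y g).2

theorem measurable_fs : Measurable (fs : (G → Bool × Bool) → G → Bool) := by
  unfold fs
  fun_prop

theorem measurable_sn : Measurable (sn : (G → Bool × Bool) → G → Bool) := by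
  unfold sn
  fun_prop

theorem map_fs (s : unitInterval) : (bern G (nu s)).map fs = bern G unif :=
  map_pi (nu s) unif measurable_fst (map_fst_nu s)

theorem map_sn (s : unitInterval) : (bern G (nu s)).map sn = bern G unif :=
  map_pi (nu s) unif measurable_snd (map_snd_nu s)

/-- the probability that both configurations are in `A` -/
noncomputable def qq (A : Set (G → Bool)) (s : unitInterval) : ℝ :=
  (bern G (nu s)).real (fs ⁻¹' A ∩ sn ⁻¹' A)

theorem qq_sub_le {A A' : Set (G → Bool)} (hA : MeasurableSet A) (hA' : MeasurableSet A')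
    (s : unitInterval) : |qq A s - qq A' s| ≤ 2 * (bern G unif).real (symmDiff A A') := by
  unfold qq
  refine (abs_measureReal_sub_le_measureReal_symmDiff
    ((measurable_fs hA).inter (measurable_sn hA)).nullMeasurableSet
    ((measurable_fs hA').inter (measurable_sn hA')).nullMeasurableSet).trans ?_
  have h1 : symmDiff (fs ⁻¹' A ∩ sn ⁻¹' A) (fs ⁻¹' A' ∩ sn ⁻¹' A') ⊆
      fs ⁻¹' (symmDiff A A') ∪ sn ⁻¹' (symmDiff A A') := by
    intro y hy
    rw [Set.mem_symmDiff] at hy
    simp only [Set.mem_union, Set.mem_preimage, Set.mem_symmDiff, Set.mem_inter_iff] at hy ⊢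
    tauto
  have h2 : MeasurableSet (symmDiff A A') := hA.symmDiff hA'
  refine ((measureReal_mono h1).trans (measureReal_union_le _ _)).trans (le_of_eq ?_)
  rw [← map_measureReal_apply measurable_fs h2, ← map_measureReal_apply measurable_sn h2,
    map_fs, map_sn]
  ring

theorem block_qq {A : Set (G → Bool)} {B : Finset G} (hA : DependsOn (fun x => x ∈ A) (B : Set G)) :
    ∃ S : Finset (B → Bool × Bool), (∀ z, z ∈ S ↔ (ex B (fun i => (z i).1) ∈ A ∧
      ex B (fun i => (z i).2) ∈ A)) ∧
      ∀ s, qq A s = ∑ z ∈ S, ∏ i, mm s (z i) := by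
  classical
  refine ⟨Finset.univ.filter fun z => (ex B (fun i => (z i).1) ∈ A ∧
      ex B (fun i => (z i).2) ∈ A), fun z => by simp, fun s => ?_⟩
  have h := sum_law (μ := bern G (nu s)) (co B) (FM_co B)
    (Finset.univ.filter fun z => (ex B (fun i => (z i).1) ∈ A ∧ ex B (fun i => (z i).2) ∈ A))
  have h1 : ∀ z : B → Bool × Bool, law (bern G (nu s)) (co B) z = ∏ i, mm s (z i) := by
    intro z
    rw [law_co]
    exact Finset.prod_congr rfl fun i _ => nu_real s (z i)
  simp only [h1] at h
  rw [h]
  unfold qq
  congr 1
  ext y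
  have e1 : (ex B (fun i => (co B y i).1) ∈ A) = (fs y ∈ A) := ex_spec hA (fs y)
  have e2 : (ex B (fun i => (co B y i).2) ∈ A) = (sn y ∈ A) := ex_spec hA (sn y)
  simp only [Set.mem_inter_iff, Set.mem_preimage, Finset.coe_filter, Finset.mem_univ, true_and,
    Set.mem_ofPred_eq, e1, e2]

theorem block_pp {A : Set (G → Bool)} {B : Finset G} (hA : DependsOn (fun x => x ∈ A) (B : Set G)) :
    ∃ S : Finset (B → Bool), (∀ z, z ∈ S ↔ ex B z ∈ A) ∧
      (bern G unif).real A = ∑ _z ∈ S, ∏ _i : B, (1 / 2 : ℝ) := by
  classical
  refine ⟨Finset.univ.filter fun z => ex B z ∈ A, fun z => by simp, ?_⟩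
  have h := sum_law (μ := bern G unif) (co B) (FM_co B)
    (Finset.univ.filter fun z => ex B z ∈ A)
  have h1 : ∀ z : B → Bool, law (bern G unif) (co B) z = ∏ _i : B, (1 / 2 : ℝ) := by
    intro z
    rw [law_co]
    exact Finset.prod_congr rfl fun i _ => unif_real (z i)
  simp only [h1] at h
  rw [h]
  congr 1
  ext y
  have e1 : (ex B (co B y) ∈ A) = (y ∈ A) := ex_spec hA y
  simp only [Set.mem_preimage, Finset.coe_filter, Finset.mem_univ, true_and,
    Set.mem_ofPred_eq, e1]

theorem block_cont {A : Set (G → Bool)} {B : Finset G}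
    (hA : DependsOn (fun x => x ∈ A) (B : Set G)) : Continuous (qq A) := by
  obtain ⟨S, -, hS⟩ := block_qq hA
  have : qq A = fun s : unitInterval => ∑ z ∈ S, ∏ i, mm s (z i) := funext hS
  rw [this]
  refine continuous_finsetSum _ fun z _ => continuous_finsetProd _ fun i _ => ?_
  unfold mm
  split_ifs
  · fun_prop
  · fun_prop

/-- the middle point -/
noncomputable def hlf : unitInterval := ⟨1 / 2, by norm_num, by norm_num⟩

theorem block_half {A : Set (G → Bool)} {B : Finset G}
    (hA : DependsOn (fun x => x ∈ A) (B : Set G)) :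
    qq A hlf = (bern G unif).real A ^ 2 := by
  obtain ⟨S, hS, hq⟩ := block_qq hA
  obtain ⟨P, hP, hp⟩ := block_pp hA
  have h1 : S = (P ×ˢ P).map (Equiv.arrowProdEquivProdArrow B (fun _ => Bool)
      (fun _ => Bool)).symm.toEmbedding := by
    ext z
    rw [hS, Finset.mem_map_equiv, Equiv.symm_symm, Finset.mem_product, hP, hP]
    rfl
  have h2 : ∀ p : Bool × Bool, mm (hlf : unitInterval) p = (1 / 2) * (1 / 2) := by
    intro p
    unfold mm hlf
    split_ifs <;> norm_num
  rw [hq, h1, Finset.sum_map]
  simp only [h2, Finset.prod_mul_distrib]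
  rw [hp, sq, Finset.sum_mul_sum, ← Finset.sum_product']

theorem qq_cont {A : Set (G → Bool)} (hA : MeasurableSet A) : Continuous (qq A) := by
  refine continuous_of_uniform_approx_of_continuous fun u hu => ?_
  obtain ⟨ε, hε, hu⟩ := Metric.mem_uniformity_dist.1 hu
  obtain ⟨B, A', hd, hm, hlt⟩ := approx unif hA (show 0 < ε / 2 by linarith)
  refine ⟨qq A', block_cont hd, fun s => hu ?_⟩
  rw [Real.dist_eq]
  have h := qq_sub_le hA hm s
  rw [symmDiff_comm] at h
  linarith

theorem qq_half {A : Set (G → Bool)} (hA : MeasurableSet A) :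
    qq A hlf = (bern G unif).real A ^ 2 := by
  rw [← sub_eq_zero, ← abs_nonpos_iff]
  refine le_of_forall_pos_lt_add fun ε hε => ?_
  rw [zero_add]
  obtain ⟨B, A', hd, hm, hlt⟩ := approx unif hA (show 0 < ε / 4 by linarith)
  have h1 := qq_sub_le hA hm hlf
  have h2 := abs_measureReal_sub_le_measureReal_symmDiff (μ := bern G unif)
    hA.nullMeasurableSet hm.nullMeasurableSet
  rw [symmDiff_comm] at h1 h2
  have h3 := block_half hd
  have h4 : qq A hlf - (bern G unif).real A ^ 2 = (qq A hlf - qq A' hlf) -
      ((bern G unif).real A - (bern G unif).real A') *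
        ((bern G unif).real A + (bern G unif).real A') := by
    rw [h3]
    ring
  have h5 : |(bern G unif).real A + (bern G unif).real A'| ≤ 2 := by
    rw [abs_of_nonneg (add_nonneg measureReal_nonneg measureReal_nonneg)]
    have := measureReal_le_one (μ := bern G unif) (s := A)
    have := measureReal_le_one (μ := bern G unif) (s := A')
    linarith
  rw [h4]
  refine (abs_sub _ _).trans_lt ?_
  rw [abs_mul]
  have h6 := mul_le_mul h2 h5 (abs_nonneg _) (measureReal_nonneg)
  linarith

theorem qq_one [Countable G] (A : Set (G → Bool)) (hA : MeasurableSet A) :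
    qq A 1 = (bern G unif).real A := by
  have h1 : ∀ᵐ y ∂(bern G (nu 1)), fs y = sn y := by
    have h2 : ∀ g : G, ∀ᵐ y ∂(bern G (nu 1)), (y g).1 = (y g).2 := by
      intro g
      have h3 : ∀ᵐ p ∂(nu 1), p.1 = p.2 := by
        have h4 : nu 1 = (2⁻¹ : ENNReal) • (Measure.dirac (true, true) +
            Measure.dirac (false, false)) := by
          unfold nu
          simp
        rw [h4]
        refine Measure.ae_smul_measure ?_ _
        rw [ae_add_measure_iff]
        constructor
        · rw [ae_dirac_iff (Set.toFinite _).measurableSet]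
        · rw [ae_dirac_iff (Set.toFinite _).measurableSet]
      have h5 : (bern G (nu 1)).map (fun y => y g) = nu 1 :=
        Measure.infinitePi_map_eval (μ := fun _ : G => nu 1) g
      rw [← h5] at h3
      exact ae_of_ae_map (measurable_pi_apply g).aemeasurable h3
    filter_upwards [ae_all_iff.2 h2] with y hy
    funext g
    exact hy g
  unfold qq
  rw [← map_fs 1, map_measureReal_apply measurable_fs hA]
  refine measureReal_congr ?_
  filter_upwards [h1] with y hy
  apply propext
  show (fs y ∈ A ∧ sn y ∈ A) ↔ fs y ∈ A
  rw [← hy]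
  exact and_self_iff

end

end Pool.Agent.R546.MK
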